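import Pool.Agent.U753.MY.Stm

/-!
# Project MY, package MI2: a minimiser of the relative entropy on the torus (MP_0f69bf_mp)
-/

set_option autoImplicit false

open scoped BigOperators Matrix ComplexOrder
open scoped Matrix.Norms.L2Operator

namespace Pool.Agent.U141.MY

open Pool.Agent.U753.MY
open Pool.Agent.U753.MX (part)

open Pool.Agent.TH235.PP (BoxOp TorOp Site term ham sh)

/-- An entry is at most the operator norm. -/
lemma entry_le_norm {n : Type} [Fintype n] [DecidableEq n] (A : Matrix n n ℂ) (i j : n) :
    ‖A i j‖ ≤ ‖A‖ := by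
  have h1 := Matrix.l2_opNorm_mulVec A (EuclideanSpace.single j (1 : ℂ))
  have h2 : ‖(EuclideanSpace.single j (1 : ℂ) : EuclideanSpace ℂ n)‖ = 1 := by simp
  rw [h2, mul_one] at h1
  refine le_trans ?_ h1
  have h3 := PiLp.norm_apply_le
    (WithLp.toLp 2 (A *ᵥ (EuclideanSpace.single j (1 : ℂ) : EuclideanSpace ℂ n).ofLp) :
      EuclideanSpace ℂ n) i
  refine le_trans (le_of_eq ?_) h3
  congr 1
  change A i j = (A *ᵥ (Pi.single j (1 : ℂ))) i
  rw [Matrix.mulVec_single_one]
  rfl

/-- The translates depend continuously on the operator. -/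
lemma cont_term {d r L : ℕ} [NeZero L] (u : Site L) :
    Continuous (fun h : BoxOp d r => (term h u : TorOp d L)) := by
  classical
  refine continuous_matrix fun s t => ?_
  unfold term
  by_cases hc : ∀ v, (∀ x : Fin r × Fin r, sh u x ≠ v) → s v = t v
  · simp only [if_pos hc]
    exact continuous_apply_apply (ρ := fun _ _ => ℂ) _ _
  · simp only [if_neg hc]
    exact continuous_const

/-- The partition function of a Hermitian matrix is positive. -/
lemma part_pos {n : Type} [Fintype n] [DecidableEq n] [Nonempty n] (K : Matrix n n ℂ)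
    (hK : K.IsHermitian) : 0 < part K := by
  set A : Matrix n n ℂ := (-(1 / 2 : ℂ)) • K with hA
  have hAh : A.IsHermitian := by
    unfold Matrix.IsHermitian
    rw [hA, Matrix.conjTranspose_smul, hK.eq]
    simp
  have hEh : (NormedSpace.exp A).IsHermitian := Matrix.IsHermitian.exp hAh
  have hsum : A + A = -K := by
    rw [hA, ← add_smul]
    norm_num
  have hE : NormedSpace.exp (-K) = (NormedSpace.exp A)ᴴ * NormedSpace.exp A := by
    rw [hEh.eq, ← hsum]
    exact Matrix.exp_add_of_commute A A (Commute.refl A)
  have hne : NormedSpace.exp A ≠ 0 := (Matrix.isUnit_exp A).ne_zero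
  unfold part
  rw [hE]
  have hps := (Matrix.posSemidef_conjTranspose_mul_self (NormedSpace.exp A)).trace_nonneg
  have hre : 0 ≤ ((NormedSpace.exp A)ᴴ * NormedSpace.exp A).trace.re :=
    (Complex.nonneg_iff.mp hps).1
  refine lt_of_le_of_ne hre fun h0 => hne ?_
  rw [← Matrix.trace_conjTranspose_mul_self_eq_zero_iff]
  apply Complex.ext
  · exact h0.symm
  · exact (Complex.nonneg_iff.mp hps).2.symm

/-- A minimiser of the relative entropy exists. -/
theorem t_mi2 : StmMI2 := by
  intro d b m _ hd ω J hJ
  classical
  have : Nonempty (Site m → Fin d) := ⟨fun _ => ⟨0, hd⟩⟩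
  have hnorm : Continuous (fun A : BoxOp d b => ‖A‖) := continuous_norm
  have hclosed : IsClosed {h : BoxOp d b | h.IsHermitian ∧ ‖h‖ ≤ J} := by
    refine IsClosed.inter (s₁ := {h : BoxOp d b | h.IsHermitian}) (s₂ := {h : BoxOp d b | ‖h‖ ≤ J}) ?_ ?_
    · have e : {h : BoxOp d b | h.IsHermitian} = {h | Matrix.conjTranspose h = h} := rfl
      rw [e]
      refine isClosed_eq ?_ continuous_id
      exact continuous_id.matrix_conjTranspose
    · exact isClosed_le hnorm continuous_const
  have hK : IsCompact {h : BoxOp d b | ∀ p q, h p q ∈ Metric.closedBall (0 : ℂ) J} := by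
    have e : {h : BoxOp d b | ∀ p q, h p q ∈ Metric.closedBall (0 : ℂ) J} =
        (Set.pi Set.univ fun _ => Set.pi Set.univ fun _ =>
          Metric.closedBall (0 : ℂ) J : Set (BoxOp d b)) := by
      ext h
      constructor
      · intro hh p _ q _
        exact hh p q
      · intro hh p q
        exact hh p trivial q trivial
    rw [e]
    refine isCompact_univ_pi fun p => ?_
    refine isCompact_univ_pi fun q => ?_
    exact isCompact_closedBall _ _
  have hcomp : IsCompact {h : BoxOp d b | h.IsHermitian ∧ ‖h‖ ≤ J} := by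
    refine hK.of_isClosed_subset hclosed ?_
    intro h hh p q
    rw [mem_closedBall_zero_iff]
    exact (entry_le_norm h p q).trans hh.2
  have hne : ({h : BoxOp d b | h.IsHermitian ∧ ‖h‖ ≤ J}).Nonempty := by
    refine ⟨0, Matrix.isHermitian_zero, ?_⟩
    rw [norm_zero]
    exact hJ
  have hsum : Continuous (fun h : BoxOp d b => (ham h m : TorOp d m)) := by
    unfold ham
    exact continuous_finsetSum _ fun u _ => cont_term u
  let _ : NormedAlgebra ℚ (TorOp d m) := NormedAlgebra.restrictScalars ℚ ℂ (TorOp d m)
  have hexp : Continuous (NormedSpace.exp : TorOp d m → TorOp d m) := NormedSpace.exp_continuous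
  have hpart : Continuous (fun K : TorOp d m => part K) := by
    unfold part
    exact Complex.continuous_re.comp ((hexp.comp continuous_neg).matrix_trace)
  have hlin : Continuous (fun h : BoxOp d b => (m : ℝ) ^ 2 * (ω * h).trace.re) := by
    refine continuous_const.mul (Complex.continuous_re.comp ?_)
    exact (continuous_const.matrix_mul continuous_id).matrix_trace
  have hcont : ContinuousOn (relT (d := d) (b := b) m ω)
      {h : BoxOp d b | h.IsHermitian ∧ ‖h‖ ≤ J} := by
    unfold relT
    refine ContinuousOn.add ?_ hlin.continuousOn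
    refine ContinuousOn.log (hpart.comp hsum).continuousOn ?_
    intro h hh
    exact (part_pos _ (Pool.Agent.TH235.PP.ham_herm h hh.1)).ne'
  obtain ⟨h, hh, hmin⟩ := hcomp.exists_isMinOn hne hcont
  exact ⟨h, hh.1, hh.2, fun h' h1 h2 => hmin ⟨h1, h2⟩⟩

end Pool.Agent.U141.MY
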